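import Pool.Agent.R978.DGSharp

/-!
# The discrete Gaussian chain has variance of order `n^(α-2)/β` at every temperature

For `2 < α < 3` and every `β > 0` the variance of the height at the origin of the long-range
discrete Gaussian chain in `[-n, n]` with zero boundary condition is at least
`(3-α)(α-2)/(32 α β) n^(α-2)` for all large `n`.  The order `n^(α-2)/β` is that of the
real-valued Gaussian chain.
-/

set_option autoImplicit false

open Filter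

namespace Pool.Agent.Results.MP_57c4e5_pr.SharpOrderAllTemperatures

/-- The Hamiltonian `∑ (ψ_x - ψ_y)² / |x - y|^α` over unordered pairs `{x, y}`; the pair is
represented by `p = (x, y)` with `x < y`. -/
noncomputable def energy (α : ℝ) (ψ : ℤ → ℤ) : ℝ :=
  ∑' p : ℤ × ℤ, if p.1 < p.2 then
    ((ψ p.1 : ℝ) - (ψ p.2 : ℝ)) ^ 2 / (((p.2 - p.1 : ℤ) : ℝ)) ^ α else 0

/-- Integer-valued configurations on `ℤ` vanishing outside `[-n, n]`. -/
abbrev Conf (n : ℕ) : Type := {ψ : ℤ → ℤ // ∀ x : ℤ, (n : ℤ) < |x| → ψ x = 0}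

/-- The expectation of `f` under the finite-volume Gibbs measure `exp (-β H) / Z` on `Conf n`. -/
noncomputable def gibbs (α β : ℝ) (n : ℕ) (f : (ℤ → ℤ) → ℝ) : ℝ :=
  (∑' ψ : Conf n, f ψ.1 * Real.exp (-(β * energy α ψ.1))) /
    ∑' ψ : Conf n, Real.exp (-(β * energy α ψ.1))

/-- The variance of the height at the origin under the finite-volume Gibbs measure. -/
noncomputable def variance0 (α β : ℝ) (n : ℕ) : ℝ :=
  gibbs α β n (fun ψ => (ψ 0 : ℝ) ^ 2) - (gibbs α β n (fun ψ => (ψ 0 : ℝ))) ^ 2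

lemma term_eq (α : ℝ) (ψ : ℤ → ℤ) (p : ℤ × ℤ) :
    R978.DG.w α p * ((ψ p.1 : ℝ) - (ψ p.2 : ℝ)) ^ 2 =
    (if p.1 < p.2 then ((ψ p.1 : ℝ) - (ψ p.2 : ℝ)) ^ 2 / (((p.2 - p.1 : ℤ) : ℝ)) ^ α else 0) +
    (if p.2 < p.1 then ((ψ p.2 : ℝ) - (ψ p.1 : ℝ)) ^ 2 / (((p.1 - p.2 : ℤ) : ℝ)) ^ α else 0) := by
  unfold R978.DG.w
  rcases lt_trichotomy p.1 p.2 with h | h | h
  · rw [if_neg h.ne, if_pos h, if_neg (not_lt.mpr h.le), add_zero, abs_sub_comm,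
      abs_of_pos (by omega), Real.rpow_neg (by exact_mod_cast (by omega : (0 : ℤ) ≤ p.2 - p.1)),
      div_eq_inv_mul]
  · rw [if_pos h, if_neg (by omega), if_neg (by omega)]
    ring
  · rw [if_neg h.ne', if_neg (not_lt.mpr h.le), if_pos h, zero_add,
      abs_of_pos (by omega), Real.rpow_neg (by exact_mod_cast (by omega : (0 : ℤ) ≤ p.1 - p.2)),
      div_eq_inv_mul]
    ring

lemma H_eq {α : ℝ} (hα : 1 < α) {n : ℕ} {ψ : ℤ → ℤ} (hψ : ψ ∈ R978.DG.V n) :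
    R978.DG.H α ψ = 2 * energy α ψ := by
  have hs := R978.DG.summable_H hα hψ
  have hg : Summable fun p : ℤ × ℤ => if p.1 < p.2 then
      ((ψ p.1 : ℝ) - (ψ p.2 : ℝ)) ^ 2 / (((p.2 - p.1 : ℤ) : ℝ)) ^ α else 0 := by
    refine Summable.of_nonneg_of_le (fun p => ?_) (fun p => ?_) hs
    · split_ifs with h
      · have : (0 : ℝ) ≤ ((p.2 - p.1 : ℤ) : ℝ) := by exact_mod_cast (by omega : (0 : ℤ) ≤ p.2 - p.1)
        positivity
      · exact le_rfl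
    · rw [term_eq]
      have : (0 : ℝ) ≤ (if p.2 < p.1 then
          ((ψ p.2 : ℝ) - (ψ p.1 : ℝ)) ^ 2 / (((p.1 - p.2 : ℤ) : ℝ)) ^ α else 0) := by
        split_ifs with h
        · have : (0 : ℝ) ≤ ((p.1 - p.2 : ℤ) : ℝ) := by
            exact_mod_cast (by omega : (0 : ℤ) ≤ p.1 - p.2)
          positivity
        · exact le_rfl
      linarith
  have hg' : Summable fun p : ℤ × ℤ => if p.2 < p.1 then
      ((ψ p.2 : ℝ) - (ψ p.1 : ℝ)) ^ 2 / (((p.1 - p.2 : ℤ) : ℝ)) ^ α else 0 :=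
    (Equiv.prodComm ℤ ℤ).summable_iff.mpr hg
  have he : ∑' p : ℤ × ℤ, (if p.2 < p.1 then
      ((ψ p.2 : ℝ) - (ψ p.1 : ℝ)) ^ 2 / (((p.1 - p.2 : ℤ) : ℝ)) ^ α else 0) = energy α ψ :=
    (Equiv.prodComm ℤ ℤ).tsum_eq fun p : ℤ × ℤ => if p.1 < p.2 then
      ((ψ p.1 : ℝ) - (ψ p.2 : ℝ)) ^ 2 / (((p.2 - p.1 : ℤ) : ℝ)) ^ α else 0
  unfold R978.DG.H
  simp_rw [term_eq]
  rw [hg.tsum_add hg', he]
  unfold energy
  ring

lemma weight_eq {α : ℝ} (hα : 1 < α) (β : ℝ) {n : ℕ} (ψ : Conf n) :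
    Real.exp (-(β * energy α ψ.1)) = Real.exp (-((β / 2) * R978.DG.H α ψ.1)) := by
  rw [H_eq hα (show ψ.1 ∈ R978.DG.V n from ψ.2)]
  congr 1; ring

lemma mean_zero {α : ℝ} (hα : 1 < α) (β : ℝ) (n : ℕ) :
    gibbs α β n (fun ψ => (ψ 0 : ℝ)) = 0 := by
  have h1 : ∑' ψ : Conf n, ((ψ.1 0 : ℤ) : ℝ) * Real.exp (-(β * energy α ψ.1)) =
      ∑' ψ : R978.DG.V n, ((ψ.1 0 : ℤ) : ℝ) * Real.exp (-((β / 2) * R978.DG.H α ψ.1)) :=
    tsum_congr fun ψ => by rw [weight_eq hα]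
  have h2 : ∑' ψ : R978.DG.V n, ((ψ.1 0 : ℤ) : ℝ) * Real.exp (-((β / 2) * R978.DG.H α ψ.1)) =
      -∑' ψ : R978.DG.V n, ((ψ.1 0 : ℤ) : ℝ) * Real.exp (-((β / 2) * R978.DG.H α ψ.1)) := by
    rw [← tsum_neg, ← (Equiv.neg (R978.DG.V n)).tsum_eq]
    refine tsum_congr fun ψ => ?_
    have h3 : ((Equiv.neg (R978.DG.V n)) ψ).1 = -ψ.1 := rfl
    have h4 : R978.DG.H α (-ψ.1) = R978.DG.H α ψ.1 := by
      unfold R978.DG.H
      refine tsum_congr fun p => ?_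
      simp only [Pi.neg_apply, Int.cast_neg]
      ring
    rw [h3, h4]
    simp
  unfold gibbs
  rw [h1]
  have h5 : ∑' ψ : R978.DG.V n, ((ψ.1 0 : ℤ) : ℝ) * Real.exp (-((β / 2) * R978.DG.H α ψ.1)) = 0 := by
    linarith
  rw [h5, zero_div]

lemma variance_eq {α : ℝ} (hα : 1 < α) (β : ℝ) (n : ℕ) :
    variance0 α β n =
      (∑' ψ : R978.DG.V n, ((ψ.1 0 : ℤ) : ℝ) ^ 2 * Real.exp (-((β / 2) * R978.DG.H α ψ.1))) /
        ∑' ψ : R978.DG.V n, Real.exp (-((β / 2) * R978.DG.H α ψ.1)) := by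
  unfold variance0
  rw [mean_zero hα]
  unfold gibbs
  have h1 : ∑' ψ : Conf n, ((ψ.1 0 : ℤ) : ℝ) ^ 2 * Real.exp (-(β * energy α ψ.1)) =
      ∑' ψ : R978.DG.V n, ((ψ.1 0 : ℤ) : ℝ) ^ 2 * Real.exp (-((β / 2) * R978.DG.H α ψ.1)) :=
    tsum_congr fun ψ => by rw [weight_eq hα]
  have h2 : ∑' ψ : Conf n, Real.exp (-(β * energy α ψ.1)) =
      ∑' ψ : R978.DG.V n, Real.exp (-((β / 2) * R978.DG.H α ψ.1)) :=
    tsum_congr fun ψ => by rw [weight_eq hα]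
  rw [h1, h2]
  ring

/-- For every `α ∈ (2,3)` and every `β > 0`, for all large `n` the variance at the origin of the
discrete Gaussian chain is at least `(3-α)(α-2)/(32 α) · β⁻¹ · n^(α-2)`. -/
theorem result (α : ℝ) (h2 : 2 < α) (h3 : α < 3) (β : ℝ) (hβ : 0 < β) :
    ∀ᶠ n : ℕ in atTop,
      (3 - α) * (α - 2) / (32 * α) * (1 / β) * (n : ℝ) ^ (α - 2) ≤ variance0 α β n := by
  have hβ2 : 0 < β / 2 := by positivity
  have hα1 : 1 < α := by linarith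
  have hZ : ∀ n : ℕ, 0 < ∑' ψ : R978.DG.V n, Real.exp (-((β / 2) * R978.DG.H α ψ.1)) := fun n =>
    (R978.DG.summable_Z hα1 hβ2 n).tsum_pos (fun φ => (Real.exp_pos _).le) 0 (Real.exp_pos _)
  have ha : 0 < α - 2 := by linarith
  have hb : 0 < 3 - α := by linarith
  filter_upwards [R978.DG.lower_sharp h2 h3 hβ2] with n hn
  rw [variance_eq hα1, le_div_iff₀ (hZ n)]
  refine le_trans (mul_le_mul_of_nonneg_right ?_ (hZ n).le) hn
  have h4 : (n : ℝ) ^ (α - 2) ≤ ((n : ℝ) + 1) ^ (α - 2) :=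
    Real.rpow_le_rpow (Nat.cast_nonneg n) (by linarith) ha.le
  have h5 : (3 - α) * (α - 2) / (32 * α) * (1 / β) = (3 - α) * (α - 2) / (64 * α * (β / 2)) := by
    field_simp
    norm_num
  rw [h5]
  exact mul_le_mul_of_nonneg_left h4 (by positivity)

end Pool.Agent.Results.MP_57c4e5_pr.SharpOrderAllTemperatures
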